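import Pool.Agent.H45.SHA.Stmts

/-!
# SHA module TLD: few tuples of free primes, all primes distinct
-/

set_option autoImplicit false

namespace Pool.SHA

open Finset Pool.Agent.H98.ABCR

/-- the product point -/
def tld_pp {k : ℕ} (I : Finset (Fin k → ℕ)) : Fin k → ℕ := fun j => ∏ q ∈ I, q j

private lemma tld_valprod (π : ℕ) [Fact π.Prime] {ι : Type*} (s : Finset ι) (f : ι → ℚ)
    (hf : ∀ j ∈ s, f j ≠ 0) : padicValRat π (∏ j ∈ s, f j) = ∑ j ∈ s, padicValRat π (f j) := by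
  classical
  induction s using Finset.induction_on with
  | empty => simp
  | insert a s ha ih =>
    rw [Finset.prod_insert ha, Finset.sum_insert ha,
      padicValRat.mul (hf a (Finset.mem_insert_self a s))
        (Finset.prod_ne_zero_iff.2 fun j hj => hf j (Finset.mem_insert_of_mem hj)),
      ih fun j hj => hf j (Finset.mem_insert_of_mem hj)]

/-- valuation of the coordinates of the product point -/
private lemma tld_valpp {k : ℕ} (Q I : Finset (Fin k → ℕ)) (hI : I ⊆ Q)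
    (hp : ∀ q ∈ Q, ∀ j, (q j).Prime)
    (hd : ∀ q ∈ Q, ∀ q' ∈ Q, ∀ j j', q j = q' j' → q = q' ∧ j = j')
    (q : Fin k → ℕ) (hq : q ∈ Q) (j j' : Fin k) [Decidable (q ∈ I)] :
    padicValNat (q j) (tld_pp I j') = if q ∈ I ∧ j = j' then 1 else 0 := by
  classical
  have : Fact (q j).Prime := ⟨hp q hq j⟩
  have h1 : ∀ I' : Finset (Fin k → ℕ), I' ⊆ Q → padicValNat (q j) (∏ r ∈ I', r j') =
      ∑ r ∈ I', padicValNat (q j) (r j') := by
    intro I'
    induction I' using Finset.induction_on with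
    | empty => intro _; simp
    | insert a s ha ih =>
      intro hs
      have h2 : s ⊆ Q := fun x hx => hs (Finset.mem_insert_of_mem hx)
      rw [Finset.prod_insert ha, Finset.sum_insert ha, padicValNat.mul
        (hp a (hs (Finset.mem_insert_self a s)) j').ne_zero
        (Finset.prod_ne_zero_iff.2 fun r hr => (hp r (h2 hr) j').ne_zero), ih h2]
  have h3 : ∀ r ∈ I, padicValNat (q j) (r j') = if r = q ∧ j = j' then 1 else 0 := by
    intro r hr
    have : Fact (r j').Prime := ⟨hp r (hI hr) j'⟩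
    by_cases h : r j' = q j
    · obtain ⟨h4, h5⟩ := hd r (hI hr) q hq j' j h
      rw [if_pos ⟨h4, h5.symm⟩, h, padicValNat_self]
    · rw [padicValNat_primes (fun h4 => h h4.symm), if_neg]
      rintro ⟨h4, h5⟩
      exact h (by rw [h4, h5])
  unfold tld_pp
  rw [h1 I hI, Finset.sum_congr rfl h3]
  by_cases hj : j = j'
  · simp only [hj, and_true]
    rw [Finset.sum_ite_eq']
    by_cases hqI : q ∈ I <;> simp [hqI]
  · simp [hj]

private lemma tld_pp_pos {k : ℕ} (I : Finset (Fin k → ℕ)) (hp : ∀ q ∈ I, ∀ j, (q j).Prime)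
    (j : Fin k) : tld_pp I j ≠ 0 :=
  Finset.prod_ne_zero_iff.2 fun q hq => (hp q hq j).ne_zero

private lemma tld_inj {k : ℕ} (Q I I' : Finset (Fin (k + 1) → ℕ)) (hI : I ⊆ Q) (hI' : I' ⊆ Q)
    (hp : ∀ q ∈ Q, ∀ j, (q j).Prime)
    (hd : ∀ q ∈ Q, ∀ q' ∈ Q, ∀ j j', q j = q' j' → q = q' ∧ j = j')
    (h : tld_pp I = tld_pp I') : I = I' := by
  classical
  have key : ∀ q ∈ Q, (q ∈ I ↔ q ∈ I') := by
    intro q hq
    have h1 := tld_valpp Q I hI hp hd q hq 0 0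
    have h2 := tld_valpp Q I' hI' hp hd q hq 0 0
    rw [h, h2] at h1
    by_cases h3 : q ∈ I
    · by_cases h4 : q ∈ I'
      · simp [h3, h4]
      · simp [h3, h4] at h1
    · by_cases h4 : q ∈ I'
      · simp [h3, h4] at h1
      · simp [h3, h4]
  ext q
  constructor
  · intro hq; exact (key q (hI hq)).1 hq
  · intro hq; exact (key q (hI' hq)).2 hq

private lemma tld_star {k : ℕ} (Q : Finset (Fin (k + 1) → ℕ)) (C : Finset (Finset (Fin (k + 1) → ℕ)))
    (hC : ∀ I ∈ C, I ⊆ Q) (hp : ∀ q ∈ Q, ∀ j, (q j).Prime)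
    (hd : ∀ q ∈ Q, ∀ q' ∈ Q, ∀ j j', q j = q' j' → q = q' ∧ j = j') :
    Star ((C.image tld_pp).image toQ) := by
  classical
  refine ⟨?_, ?_⟩
  · intro z hz j
    obtain ⟨y, hy, rfl⟩ := Finset.mem_image.1 hz
    obtain ⟨I, hI, rfl⟩ := Finset.mem_image.1 hy
    exact Nat.cast_ne_zero.2 (tld_pp_pos I (fun q hq => hp q (hC I hI hq)) j)
  · intro z hz z' hz' hne e he h
    obtain ⟨y, hy, rfl⟩ := Finset.mem_image.1 hz
    obtain ⟨I, hI, rfl⟩ := Finset.mem_image.1 hy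
    obtain ⟨y', hy', rfl⟩ := Finset.mem_image.1 hz'
    obtain ⟨I', hI', rfl⟩ := Finset.mem_image.1 hy'
    have h0 : ∀ j, (toQ (tld_pp I) j) ≠ 0 := fun j =>
      Nat.cast_ne_zero.2 (tld_pp_pos I (fun q hq => hp q (hC I hI hq)) j)
    have h0' : ∀ j, (toQ (tld_pp I') j) ≠ 0 := fun j =>
      Nat.cast_ne_zero.2 (tld_pp_pos I' (fun q hq => hp q (hC I' hI' hq)) j)
    have hII : I ≠ I' := by
      rintro rfl
      exact hne rfl
    obtain ⟨j, hj⟩ : ∃ j, e j ≠ 0 := by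
      by_contra hc
      push Not at hc
      exact he (funext hc)
    obtain ⟨q, hq, hqq⟩ : ∃ q ∈ Q, ¬ (q ∈ I ↔ q ∈ I') := by
      by_contra hc
      push Not at hc
      refine hII (Finset.ext fun q => ?_)
      by_cases hq : q ∈ Q
      · exact hc q hq
      · exact ⟨fun h1 => absurd (hC I hI h1) hq, fun h1 => absurd (hC I' hI' h1) hq⟩
    have : Fact (q j).Prime := ⟨hp q hq j⟩
    have h1 := congrArg (padicValRat (q j)) h
    rw [padicValRat.one, tld_valprod (q j) univ _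
      (fun j' _ => zpow_ne_zero _ (div_ne_zero (h0 j') (h0' j')))] at h1
    have h2 : ∀ j' ∈ (univ : Finset (Fin (k + 1))),
        padicValRat (q j) ((toQ (tld_pp I) j' / toQ (tld_pp I') j') ^ e j') =
        if j = j' then e j' * ((if q ∈ I then 1 else 0) - (if q ∈ I' then 1 else 0)) else 0 := by
      intro j' _
      rw [padicValRat.zpow, padicValRat.div (h0 j') (h0' j')]
      simp only [toQ, padicValRat.of_nat]
      rw [tld_valpp Q I (hC I hI) hp hd q hq j j', tld_valpp Q I' (hC I' hI') hp hd q hq j j']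
      by_cases hjj : j = j' <;> by_cases h3 : q ∈ I <;> by_cases h4 : q ∈ I' <;>
        simp [hjj, h3, h4]
    rw [Finset.sum_congr rfl h2] at h1
    simp only [Finset.sum_ite_eq, Finset.mem_univ, if_true] at h1
    rcases mul_eq_zero.1 h1 with h5 | h5
    · exact hj h5
    · apply hqq
      by_cases h3 : q ∈ I <;> by_cases h4 : q ∈ I' <;> simp [h3, h4] at h5 ⊢

/-- number of `K`-units with bounded exponents -/
private lemma tld_units (K : Finset ℕ) (M : ℕ) (S : Finset ℕ)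
    (hS : ∀ u ∈ S, u ≠ 0 ∧ u.primeFactors ⊆ K ∧ ∀ r ∈ K, u.factorization r ≤ M) :
    S.card ≤ (M + 1) ^ K.card := by
  classical
  have h1 : (Fintype.piFinset fun _ : K => range (M + 1)).card = (M + 1) ^ K.card := by
    rw [Fintype.card_piFinset]
    simp
  rw [← h1]
  refine Finset.card_le_card_of_injOn (fun u => fun r : K => u.factorization r) ?_ ?_
  · intro u hu
    rw [Finset.mem_coe, Fintype.mem_piFinset]
    intro r
    rw [Finset.mem_range]
    exact Nat.lt_succ_of_le ((hS u hu).2.2 r r.2)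
  · intro u hu u' hu' h
    obtain ⟨h2, h3, _⟩ := hS u hu
    obtain ⟨h4, h5, _⟩ := hS u' hu'
    refine Nat.eq_of_factorization_eq h2 h4 fun r => ?_
    by_cases hr : r ∈ K
    · exact congrFun h ⟨r, hr⟩
    · have h7 : ∀ w : ℕ, r ∉ w.primeFactors → w.factorization r = 0 := fun w h8 =>
        Finsupp.notMem_support_iff.1 (by rwa [Nat.support_factorization])
      rw [h7 u (fun h6 => hr (h3 h6)), h7 u' (fun h6 => hr (h5 h6))]

/-- exponents are bounded by the logarithm -/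
private lemma tld_expo (u r : ℕ) (hu : u ≠ 0) (y : ℝ) (h : Real.log u ≤ y) :
    (u.factorization r : ℝ) ≤ 3 / 2 * y := by
  by_cases hr : r.Prime
  · have h1 : r ^ u.factorization r ≤ u := Nat.ordProj_le r hu
    have h2 : Real.log ((r ^ u.factorization r : ℕ) : ℝ) ≤ Real.log u :=
      Real.log_le_log (by exact_mod_cast pow_pos hr.pos _) (by exact_mod_cast h1)
    rw [Nat.cast_pow, Real.log_pow] at h2
    have h3 : Real.log 2 ≤ Real.log r :=
      Real.log_le_log (by norm_num) (by exact_mod_cast hr.two_le)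
    have h4 := Real.log_two_gt_d9
    have h5 : (0 : ℝ) ≤ u.factorization r := Nat.cast_nonneg _
    nlinarith
  · rw [Nat.factorization_eq_zero_of_not_prime _ hr]
    have h1 : 0 ≤ Real.log u := Real.log_natCast_nonneg u
    push_cast
    linarith

/-- indices of the two other coordinates and the sign -/
def tld_s1 : Fin 3 → Fin 3 := ![1, 0, 0]

/-- indices of the two other coordinates and the sign -/
def tld_s2 : Fin 3 → Fin 3 := ![2, 2, 1]

/-- indices of the two other coordinates and the sign -/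
def tld_sg : Fin 3 → ℤ := ![1, 1, -1]

private lemma tld_rel3 (v : ℕ × ℕ) (i : Fin 3) :
    (coord v i : ℤ) ∣ (coord v (tld_s1 i) : ℤ) - tld_sg i * coord v (tld_s2 i) := by
  fin_cases i
  · refine ⟨-1, ?_⟩
    simp [coord, tld_s1, tld_s2, tld_sg]
  · refine ⟨-1, ?_⟩
    simp [coord, tld_s1, tld_s2, tld_sg]
  · refine ⟨1, ?_⟩
    simp [coord, tld_s1, tld_s2, tld_sg]

private lemma tld_s1ne (i : Fin 3) : tld_s1 i ≠ i := by
  fin_cases i <;> simp [tld_s1]

private lemma tld_s2ne (i : Fin 3) : tld_s2 i ≠ i := by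
  fin_cases i <;> simp [tld_s2]

private lemma tld_s12 (i : Fin 3) : tld_s1 i ≠ tld_s2 i := by
  fin_cases i <;> simp [tld_s1, tld_s2]

private lemma tld_s12all (i s : Fin 3) (hs : s ≠ i) : s = tld_s1 i ∨ s = tld_s2 i := by
  revert hs
  fin_cases i <;> fin_cases s <;> simp [tld_s1, tld_s2]

private lemma tld_sgsq (i : Fin 3) : tld_sg i * tld_sg i = 1 := by
  fin_cases i <;> simp [tld_sg]

private lemma tld_coordpos (v : ℕ × ℕ) (hv : IsTri v) (s : Fin 3) : 0 < coord v s := by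
  obtain ⟨h1, h2, _⟩ := hv
  fin_cases s
  · simpa [coord] using h1
  · simpa [coord] using h2
  · simp [coord]; omega

private lemma tld_coordle (v : ℕ × ℕ) (s : Fin 3) : coord v s ≤ v.1 + v.2 := by
  fin_cases s <;> simp [coord]

private lemma tld_coordcop (v : ℕ × ℕ) (hv : IsTri v) (s i : Fin 3) (hs : s ≠ i) :
    (coord v s).Coprime (coord v i) := by
  obtain ⟨_, _, h⟩ := hv
  revert hs
  have h' : v.2.Coprime v.1 := h.symm
  fin_cases i <;> fin_cases s <;> simp [coord] <;> first | exact h | exact h'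

/-- the congruence given by one realised tuple -/
private lemma tld_pt {k : ℕ} (X h0 Λ : ℝ) (K : Finset ℕ) (i : Fin 3) (p : ℕ)
    (e : Fin 3 → Fin k → ℕ) (q : Fin k → ℕ) (hK : ∀ r ∈ K, r.Prime) (hpK : p ∈ K) (hΛ : 0 < Λ)
    (h : Real1 X h0 Λ K i p e q) :
    ∃ u1 u2 : ℕ, u1 ≠ 0 ∧ u2 ≠ 0 ∧ u1.primeFactors ⊆ K ∧ u2.primeFactors ⊆ K ∧
      Real.log u1 ≤ 2 * h0 ∧ Real.log u2 ≤ 2 * h0 ∧ ¬ p ∣ u1 ∧ ¬ p ∣ u2 ∧
      (((p ^ ⌈Λ / Real.log p⌉₊ : ℕ) : ℤ) ∣ (u1 : ℤ) * ∏ j, (q j : ℤ) ^ e (tld_s1 i) j -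
        tld_sg i * (u2 * ∏ j, (q j : ℤ) ^ e (tld_s2 i) j)) ∧
      (∀ s, s ≠ i → ∀ j, (e s j : ℝ) ≤ 3 * h0) := by
  obtain ⟨hinj, hq, v, hv, hh1, hh2, hL, hu⟩ := h
  have hp := hK p hpK
  have hlp : 0 < Real.log p := Real.log_pos (by exact_mod_cast hp.one_lt)
  have hfac : ⌈Λ / Real.log p⌉₊ ≤ (coord v i).factorization p := by
    rw [Nat.ceil_le, div_le_iff₀ hlp]
    exact hL
  have hpos : 0 < (coord v i).factorization p := by
    rcases Nat.eq_zero_or_pos ((coord v i).factorization p) with h0 | h0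
    · rw [h0] at hL
      simp at hL
      linarith
    · exact h0
  have hdvd : p ^ ⌈Λ / Real.log p⌉₊ ∣ coord v i :=
    (pow_dvd_pow p hfac).trans (Nat.ordProj_dvd _ _)
  have hpdvd : p ∣ coord v i := Nat.dvd_of_factorization_pos hpos.ne'
  have hlog : ∀ s, Real.log (coord v s) ≤ 2 * h0 := by
    intro s
    refine le_trans (Real.log_le_log (by exact_mod_cast tld_coordpos v hv s) ?_) hh2
    exact_mod_cast tld_coordle v s
  have hnot : ∀ s, s ≠ i → ¬ p ∣ coord v s := by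
    intro s hs h1
    have h2 := Nat.dvd_gcd h1 hpdvd
    rw [tld_coordcop v hv s i hs] at h2
    exact hp.one_lt.ne' (Nat.dvd_one.1 h2)
  have hstep : ∀ s, s ≠ i → ∃ u : ℕ, u ≠ 0 ∧ u.primeFactors ⊆ K ∧ Real.log u ≤ 2 * h0 ∧ ¬ p ∣ u ∧
      coord v s = u * ∏ j, q j ^ e s j := by
    intro s hs
    obtain ⟨u, h1, h2⟩ := hu s hs
    have h3 := tld_coordpos v hv s
    have hu0 : u ≠ 0 := by
      rintro rfl
      rw [h2] at h3
      simp at h3
    refine ⟨u, hu0, h1, ?_, ?_, h2⟩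
    · refine le_trans (Real.log_le_log (by exact_mod_cast Nat.pos_of_ne_zero hu0) ?_) (hlog s)
      exact_mod_cast Nat.le_of_dvd h3 (h2 ▸ dvd_mul_right _ _)
    · intro h4
      exact hnot s hs (h2 ▸ h4.trans (dvd_mul_right _ _))
  obtain ⟨u1, a1, a2, a3, a4, a5⟩ := hstep _ (tld_s1ne i)
  obtain ⟨u2, b1, b2, b3, b4, b5⟩ := hstep _ (tld_s2ne i)
  refine ⟨u1, u2, a1, b1, a2, b2, a3, b3, a4, b4, ?_, ?_⟩
  · have h5 : (((p ^ ⌈Λ / Real.log p⌉₊ : ℕ) : ℤ)) ∣ (coord v i : ℤ) := by exact_mod_cast hdvd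
    have h6 := h5.trans (tld_rel3 v i)
    rw [a5, b5] at h6
    push_cast at h6 ⊢
    exact h6
  · intro s hs j
    obtain ⟨u, c1, c2, c3, c4, c5⟩ := hstep s hs
    have h7 : q j ^ e s j ∣ coord v s := by
      rw [c5]
      exact (Finset.dvd_prod_of_mem (fun j => q j ^ e s j) (Finset.mem_univ j)).trans
        (dvd_mul_left _ _)
    have h8 := Nat.le_of_dvd (tld_coordpos v hv s) h7
    have h9 : Real.log ((q j ^ e s j : ℕ) : ℝ) ≤ Real.log (coord v s) :=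
      Real.log_le_log (by exact_mod_cast pow_pos (hq j).1.pos _) (by exact_mod_cast h8)
    rw [Nat.cast_pow, Real.log_pow] at h9
    have h10 : Real.log 2 ≤ Real.log (q j) :=
      Real.log_le_log (by norm_num) (by exact_mod_cast (hq j).1.two_le)
    have h11 := Real.log_two_gt_d9
    have h12 : (0 : ℝ) ≤ e s j := Nat.cast_nonneg _
    have h13 := hlog s
    nlinarith


private lemma tld_relI {k : ℕ} (I : Finset (Fin k → ℕ)) (M : ℕ) (u1 u2 : (Fin k → ℕ) → ℕ) (σ : ℤ)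
    (e1 e2 : Fin k → ℕ)
    (h : ∀ q ∈ I, (M : ℤ) ∣ (u1 q : ℤ) * ∏ j, (q j : ℤ) ^ e1 j -
      σ * (u2 q * ∏ j, (q j : ℤ) ^ e2 j)) :
    ((∏ q ∈ I, u1 q : ℕ) : ℤ) * ∏ j, (toZ (tld_pp I) j) ^ e1 j ≡
      σ ^ I.card * (((∏ q ∈ I, u2 q : ℕ) : ℤ) * ∏ j, (toZ (tld_pp I) j) ^ e2 j) [ZMOD M] := by
  classical
  induction I using Finset.induction_on with
  | empty => simp [tld_pp, toZ]
  | insert a s ha ih =>
    have h1 := ih fun q hq => h q (Finset.mem_insert_of_mem hq)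
    have h2 : (u1 a : ℤ) * ∏ j, (a j : ℤ) ^ e1 j ≡ σ * (u2 a * ∏ j, (a j : ℤ) ^ e2 j) [ZMOD M] :=
      ((Int.modEq_iff_dvd).2 (h a (Finset.mem_insert_self a s))).symm
    have h3 : ∀ j, toZ (tld_pp (insert a s)) j = (a j : ℤ) * toZ (tld_pp s) j := by
      intro j
      simp only [toZ, tld_pp]
      rw [Finset.prod_insert ha]
      push_cast
      ring
    simp only [h3, mul_pow, Finset.prod_mul_distrib]
    rw [Finset.prod_insert ha, Finset.prod_insert ha, Finset.card_insert_of_notMem ha]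
    have h4 := h2.mul h1
    refine (Int.ModEq.trans ?_ h4).trans ?_
    · refine congrArg (fun t : ℤ => t % (M : ℤ)) ?_
      push_cast
      ring
    · refine congrArg (fun t : ℤ => t % (M : ℤ)) ?_
      push_cast
      ring

private lemma tld_prodJ {k : ℕ} (e1 e2 : Fin k → ℕ)
    (hE : ∀ j, (1 ≤ e1 j ∧ e2 j = 0) ∨ (e1 j = 0 ∧ 1 ≤ e2 j)) (y : Fin k → ℤ) :
    ∏ j ∈ univ.filter (fun j => 1 ≤ e1 j), y j ^ (e1 j + e2 j) = ∏ j, y j ^ e1 j := by
  rw [Finset.prod_filter]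
  refine Finset.prod_congr rfl fun j _ => ?_
  rcases hE j with ⟨h1, h2⟩ | ⟨h1, h2⟩
  · simp [h1, h2]
  · simp [h1]

private lemma tld_prodJc {k : ℕ} (e1 e2 : Fin k → ℕ)
    (hE : ∀ j, (1 ≤ e1 j ∧ e2 j = 0) ∨ (e1 j = 0 ∧ 1 ≤ e2 j)) (y : Fin k → ℤ) :
    ∏ j ∈ (univ.filter (fun j => 1 ≤ e1 j))ᶜ, y j ^ (e1 j + e2 j) = ∏ j, y j ^ e2 j := by
  rw [Finset.compl_filter, Finset.prod_filter]
  refine Finset.prod_congr rfl fun j _ => ?_
  rcases hE j with ⟨h1, h2⟩ | ⟨h1, h2⟩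
  · simp [h1, h2]
  · simp [h1]

/-- the toric relation inside one class -/
private lemma tld_Rel {k : ℕ} (I I' : Finset (Fin k → ℕ)) (p n : ℕ) (hp : p.Prime)
    (u1 u2 : (Fin k → ℕ) → ℕ) (σ : ℤ) (hσ : σ * σ = 1)
    (e1 e2 : Fin k → ℕ) (hE : ∀ j, (1 ≤ e1 j ∧ e2 j = 0) ∨ (e1 j = 0 ∧ 1 ≤ e2 j))
    (h : ∀ q ∈ I, ((p ^ n : ℕ) : ℤ) ∣ (u1 q : ℤ) * ∏ j, (q j : ℤ) ^ e1 j -
      σ * (u2 q * ∏ j, (q j : ℤ) ^ e2 j))
    (h' : ∀ q ∈ I', ((p ^ n : ℕ) : ℤ) ∣ (u1 q : ℤ) * ∏ j, (q j : ℤ) ^ e1 j -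
      σ * (u2 q * ∏ j, (q j : ℤ) ^ e2 j))
    (hc : I.card = I'.card) (hU1 : ∏ q ∈ I, u1 q = ∏ q ∈ I', u1 q)
    (hU2 : ∏ q ∈ I, u2 q = ∏ q ∈ I', u2 q)
    (hn1 : ∀ q ∈ I, ¬ p ∣ u1 q) (hn2 : ∀ q ∈ I, ¬ p ∣ u2 q) :
    Rel (univ.filter (fun j => 1 ≤ e1 j)) (fun j => e1 j + e2 j) (p ^ n) (toZ (tld_pp I))
      (toZ (tld_pp I')) := by
  unfold Rel
  rw [tld_prodJ e1 e2 hE, tld_prodJc e1 e2 hE, tld_prodJ e1 e2 hE, tld_prodJc e1 e2 hE]
  have h1 := tld_relI I (p ^ n) u1 u2 σ e1 e2 h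
  have h2 := tld_relI I' (p ^ n) u1 u2 σ e1 e2 h'
  rw [← hU1, ← hU2, ← hc] at h2
  have h3 := h1.mul h2.symm
  set U1 : ℤ := ((∏ q ∈ I, u1 q : ℕ) : ℤ) with hU1d
  set U2 : ℤ := ((∏ q ∈ I, u2 q : ℕ) : ℤ) with hU2d
  have hcop : IsCoprime (((p ^ n : ℕ) : ℤ)) (U1 * (σ ^ I.card * U2)) := by
    push_cast
    apply IsCoprime.pow_left
    have hpz : ∀ w : ℕ, ¬ p ∣ w → IsCoprime (p : ℤ) (w : ℤ) := fun w hw =>
      Nat.isCoprime_iff_coprime.2 ((Nat.Prime.coprime_iff_not_dvd hp).2 hw)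
    have hU1c : IsCoprime (p : ℤ) U1 := by
      apply hpz
      intro h4
      obtain ⟨q, hq, h5⟩ := (Nat.Prime.prime hp).exists_mem_finset_dvd h4
      exact hn1 q hq h5
    have hU2c : IsCoprime (p : ℤ) U2 := by
      apply hpz
      intro h4
      obtain ⟨q, hq, h5⟩ := (Nat.Prime.prime hp).exists_mem_finset_dvd h4
      exact hn2 q hq h5
    have hσc : IsCoprime (p : ℤ) (σ ^ I.card) := by
      apply IsCoprime.pow_right
      exact ⟨0, σ, by rw [hσ]; ring⟩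
    exact hU1c.mul_right (hσc.mul_right hU2c)
  rw [Int.modEq_iff_dvd] at h3 ⊢
  refine hcop.dvd_of_dvd_mul_left ?_
  refine (dvd_of_eq rfl).trans (h3.trans (dvd_of_eq ?_))
  ring

private lemma tld_num (ε C1 B0 : ℝ) (hε : 0 < ε) (hC1 : 1 ≤ C1) : ∃ A X0 : ℝ, 1 ≤ A ∧ 2 ≤ X0 ∧
    ∀ (X h0 Λ : ℝ) (W : ℕ), X0 ≤ X → 1 ≤ h0 → h0 ≤ X → (W : ℝ) ≤ Real.log X →
      A * (Real.log X + W * Real.log (h0 * Real.log X)) ≤ Λ →
      0 < Λ ∧ ∃ T : ℕ, 1 ≤ T ∧ B0 ≤ X ^ T ∧ C1 ≤ T ∧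
        Real.log (3 * h0) + C1 * (T * Real.log X) ≤ Λ ∧ 2 * (T : ℝ) ≤ X ^ (ε / 4) ∧
        (3 * h0 * T + 1) ^ (2 * W) ≤ X ^ (ε * T / 4) := by
  set A' : ℝ := max (max (16 / ε) C1) 1 with hA'
  have hA1 : 1 ≤ A' := le_max_right _ _
  have hA2 : 16 / ε ≤ A' := (le_max_left _ _).trans (le_max_left _ _)
  have hA3 : C1 ≤ A' := (le_max_right _ _).trans (le_max_left _ _)
  have hA2' : 16 ≤ A' * ε := by rwa [div_le_iff₀ hε] at hA2
  refine ⟨C1 * (A' + 1) + 3, max (max B0 2) (Real.exp (1 + 13 * A' + 256 * A' / ε ^ 2)), ?_,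
    (le_max_right _ _).trans (le_max_left _ _), ?_⟩
  · have h1 : 0 ≤ C1 * (A' + 1) := by positivity
    linarith
  intro X h0 Λ W hX hh0 hh0X hW hΛ
  have hXB : B0 ≤ X := ((le_max_left _ _).trans (le_max_left _ _)).trans hX
  have hX2 : (2 : ℝ) ≤ X := ((le_max_right _ _).trans (le_max_left _ _)).trans hX
  have hX0 : 0 < X := by linarith
  have hXe : Real.exp (1 + 13 * A' + 256 * A' / ε ^ 2) ≤ X := (le_max_right _ _).trans hX
  set L := Real.log X with hL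
  have hL0 : 1 + 13 * A' + 256 * A' / ε ^ 2 ≤ L := (Real.le_log_iff_exp_le hX0).2 hXe
  have he2 : 0 < 256 * A' / ε ^ 2 := by positivity
  have hL1 : 1 ≤ L := by linarith
  have hL13 : 13 * A' ≤ L := by linarith
  have hL256 : 256 * A' / ε ^ 2 ≤ L := by linarith
  have hL256' : 256 * A' ≤ L * ε ^ 2 := by rwa [div_le_iff₀ (by positivity)] at hL256
  have hLpos : 0 < L := by linarith
  set ℓ := Real.log (h0 * L) with hℓ
  have hh0L : 1 ≤ h0 * L := one_le_mul_of_one_le_of_one_le hh0 hL1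
  have hℓ0 : 0 ≤ ℓ := Real.log_nonneg hh0L
  have hℓ2 : ℓ ≤ 2 * L := by
    rw [hℓ, Real.log_mul (by linarith) (by linarith)]
    have h1 : Real.log h0 ≤ L := Real.log_le_log (by linarith) hh0X
    have h2 : Real.log L ≤ L := (Real.log_le_sub_one_of_pos hLpos).trans (by linarith)
    linarith
  have hW0 : (0 : ℝ) ≤ W := Nat.cast_nonneg _
  have hWℓ : 0 ≤ W * ℓ := mul_nonneg hW0 hℓ0
  set T := ⌈A' * (1 + W * ℓ / L)⌉₊ with hT
  have hTlo : A' * (1 + W * ℓ / L) ≤ T := Nat.le_ceil _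
  have hTup : (T : ℝ) ≤ A' * (1 + W * ℓ / L) + 1 :=
    (Nat.ceil_lt_add_one (by positivity)).le
  have hq0 : 0 ≤ W * ℓ / L := by positivity
  have hq : W * ℓ / L ≤ 2 * L := by
    rw [div_le_iff₀ hLpos]
    calc W * ℓ ≤ L * (2 * L) := mul_le_mul hW hℓ2 hℓ0 hLpos.le
      _ = 2 * L * L := by ring
  have hTA : A' ≤ T := by
    have h1 : A' * 1 ≤ A' * (1 + W * ℓ / L) :=
      mul_le_mul_of_nonneg_left (by linarith) (by linarith)
    linarith
  have hTL : A' * (L + W * ℓ) ≤ T * L := by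
    have h1 : A' * (1 + W * ℓ / L) * L ≤ T * L := mul_le_mul_of_nonneg_right hTlo hLpos.le
    have h2 : A' * (1 + W * ℓ / L) * L = A' * (L + W * ℓ) := by field_simp
    linarith
  have hTL2 : T * L ≤ A' * (L + W * ℓ) + L := by
    have h1 : T * L ≤ (A' * (1 + W * ℓ / L) + 1) * L := mul_le_mul_of_nonneg_right hTup hLpos.le
    have h2 : (A' * (1 + W * ℓ / L) + 1) * L = A' * (L + W * ℓ) + L := by field_simp
    linarith
  have hT4 : (T : ℝ) ≤ 4 * A' * L := by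
    have h1 : A' * (1 + W * ℓ / L) ≤ A' * (1 + 2 * L) :=
      mul_le_mul_of_nonneg_left (by linarith) (by linarith)
    have h2 : A' * 1 ≤ A' * L := mul_le_mul_of_nonneg_left hL1 (by linarith)
    have h3 : 4 * A' * L = 4 * (A' * L) := by ring
    have h4 : A' * (1 + 2 * L) = A' + 2 * (A' * L) := by ring
    rw [h3]
    linarith
  have hT1 : 1 ≤ T := by
    have : (1 : ℝ) ≤ T := by linarith
    exact_mod_cast this
  refine ⟨?_, T, hT1, ?_, ?_, ?_, ?_, ?_⟩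
  · refine lt_of_lt_of_le ?_ hΛ
    have : 0 < L + W * ℓ := by linarith
    positivity
  · calc B0 ≤ X := hXB
      _ = X ^ 1 := (pow_one X).symm
      _ ≤ X ^ T := pow_le_pow_right₀ (by linarith) hT1
  · linarith
  · refine le_trans ?_ hΛ
    have h1 : Real.log (3 * h0) ≤ 3 * L := by
      rw [Real.log_mul (by norm_num) (by linarith)]
      have h2 : Real.log 3 ≤ 3 - 1 := Real.log_le_sub_one_of_pos (by norm_num)
      have h3 : Real.log h0 ≤ L := Real.log_le_log (by linarith) hh0X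
      linarith
    have h2 : C1 * (T * L) ≤ C1 * (A' * (L + W * ℓ) + L) :=
      mul_le_mul_of_nonneg_left hTL2 (by linarith)
    have h3 : 0 ≤ C1 * (W * ℓ) := by positivity
    have h4 : (C1 * (A' + 1) + 3) * (L + W * ℓ) =
      C1 * (A' * (L + W * ℓ) + L) + C1 * (W * ℓ) + 3 * L + 3 * (W * ℓ) := by ring
    rw [h4]
    linarith
  · have h1 : X ^ (ε / 4) = Real.exp (L * (ε / 4)) := Real.rpow_def_of_pos hX0 _
    rw [h1]
    have h2 : (L * (ε / 4)) ^ 2 / 2 ≤ Real.exp (L * (ε / 4)) := by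
      have := Real.quadratic_le_exp_of_nonneg (x := L * (ε / 4)) (by positivity)
      have h5 : 0 ≤ L * (ε / 4) := by positivity
      linarith
    refine le_trans ?_ h2
    have h3 : (L * (ε / 4)) ^ 2 / 2 = L * (L * ε ^ 2) / 32 := by ring
    have h4 : L * (256 * A') ≤ L * (L * ε ^ 2) := mul_le_mul_of_nonneg_left hL256' hLpos.le
    have h5 : 4 * A' * L = L * (256 * A') / 64 := by ring
    rw [h3]
    rw [h5] at hT4
    linarith
  · have h1 : 3 * h0 * T + 1 ≤ (h0 * L) ^ 2 := by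
      have h2 : 3 * h0 * T ≤ 3 * h0 * (4 * A' * L) := mul_le_mul_of_nonneg_left hT4 (by positivity)
      have h3 : 3 * h0 * T + 1 ≤ 13 * A' * (h0 * L) := by
        have h8 : 1 ≤ A' * (h0 * L) := one_le_mul_of_one_le_of_one_le hA1 hh0L
        have h9 : 3 * h0 * (4 * A' * L) = 12 * (A' * (h0 * L)) := by ring
        have h10 : 13 * A' * (h0 * L) = 13 * (A' * (h0 * L)) := by ring
        rw [h9] at h2
        rw [h10]
        linarith
      have h4 : 13 * A' ≤ h0 * L := hL13.trans (le_mul_of_one_le_left hLpos.le hh0)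
      calc 3 * h0 * T + 1 ≤ 13 * A' * (h0 * L) := h3
        _ ≤ (h0 * L) * (h0 * L) := mul_le_mul_of_nonneg_right h4 (by linarith)
        _ = (h0 * L) ^ 2 := by ring
    have h5 : (3 * h0 * T + 1) ^ (2 * W) ≤ ((h0 * L) ^ 2) ^ (2 * W) :=
      pow_le_pow_left₀ (by positivity) h1 _
    refine h5.trans ?_
    have h6 : h0 * L = Real.exp ℓ := (Real.exp_log (by linarith)).symm
    rw [h6, ← pow_mul, ← Real.exp_nat_mul, Real.rpow_def_of_pos hX0, Real.exp_le_exp]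
    push_cast
    have h7 : A' * (W * ℓ) ≤ T * L := by
      have h11 : A' * (W * ℓ) ≤ A' * (L + W * ℓ) :=
        mul_le_mul_of_nonneg_left (by linarith) (by linarith)
      linarith
    have h8 : ε * (A' * (W * ℓ)) ≤ ε * (T * L) := mul_le_mul_of_nonneg_left h7 hε.le
    have h9 : 16 * (W * ℓ) ≤ (A' * ε) * (W * ℓ) := mul_le_mul_of_nonneg_right hA2' hWℓ
    have h10 : 2 * (W : ℝ) * (2 * ℓ) = 4 * (W * ℓ) := by ring
    have h11 : L * (ε * T / 4) = ε * (T * L) / 4 := by ring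
    have h12 : ε * (A' * (W * ℓ)) = (A' * ε) * (W * ℓ) := by ring
    have h13 : 4 * (W * ℓ) ≤ ε * (T * L) / 4 := by linarith
    rw [h11]
    linarith

private lemma tld_choose (ε X : ℝ) (N T : ℕ) (hε : 0 < ε) (hX : 2 ≤ X) (hN : X ^ ε < N)
    (hT1 : 1 ≤ T) (hT : 2 * (T : ℝ) ≤ X ^ (ε / 4)) :
    X ^ (3 * ε * T / 4) ≤ (N.choose T : ℝ) := by
  have hX0 : 0 < X := by linarith
  have hT0 : (0 : ℝ) < T := by exact_mod_cast hT1
  have h1 : X ^ (ε / 4) ≤ X ^ ε := Real.rpow_le_rpow_of_exponent_le (by linarith) (by linarith)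
  have h2 : 2 * (T : ℝ) < N := by linarith
  have h3 : 2 * T < N := by exact_mod_cast h2
  have h4 := Nat.pow_le_choose (α := ℝ) T N
  have h5 : ((N + 1 - T : ℕ) : ℝ) = N + 1 - T := by
    rw [Nat.cast_sub (by omega)]
    push_cast
    ring
  have h6 : ((T.factorial : ℕ) : ℝ) ≤ (T : ℝ) ^ T := by exact_mod_cast Nat.factorial_le_pow T
  have h7 : (X ^ ε / (2 * T)) ^ T ≤ (N.choose T : ℝ) := by
    refine le_trans ?_ h4
    rw [h5]
    have h8 : X ^ ε / (2 * T) ≤ (N + 1 - T : ℝ) / T := by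
      rw [div_le_div_iff₀ (by positivity) hT0]
      nlinarith
    calc (X ^ ε / (2 * T)) ^ T ≤ ((N + 1 - T : ℝ) / T) ^ T := by
          apply pow_le_pow_left₀ (by positivity) h8
      _ = (N + 1 - T : ℝ) ^ T / (T : ℝ) ^ T := div_pow _ _ _
      _ ≤ (N + 1 - T : ℝ) ^ T / T.factorial := by
          apply div_le_div_of_nonneg_left (pow_nonneg (by linarith) _) _ h6
          exact_mod_cast Nat.factorial_pos T
  refine le_trans ?_ h7
  have h9 : X ^ (3 * ε / 4) ≤ X ^ ε / (2 * T) := by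
    rw [le_div_iff₀ (by positivity)]
    calc X ^ (3 * ε / 4) * (2 * T) ≤ X ^ (3 * ε / 4) * X ^ (ε / 4) :=
          mul_le_mul_of_nonneg_left hT (by positivity)
      _ = X ^ ε := by
          rw [← Real.rpow_add hX0]
          congr 1
          ring
  have h10 : X ^ (3 * ε * T / 4) = (X ^ (3 * ε / 4)) ^ T := by
    rw [← Real.rpow_natCast, ← Real.rpow_mul hX0.le]
    congr 1
    ring
  rw [h10]
  exact pow_le_pow_left₀ (by positivity) h9 _

theorem tld_thm (h1 : S_CLS) : S_TLD := by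
  classical
  intro k ε hε
  obtain ⟨C1, B0, hC1, hB0, hcls⟩ := h1 k (ε / 8) (by linarith)
  obtain ⟨A, X0, hA, hX0, hnum⟩ := tld_num ε C1 B0 hε hC1
  refine ⟨A, X0, hA, by linarith, ?_⟩
  intro X h0 Λ W K i p e Q hX hh0 hh0X hW hKW hK hpK hpX hE hΛ hQ hd
  obtain ⟨hΛ0, T, hT1, hTB, hTC, hTΛ, hTX, hTW⟩ := hnum X h0 Λ W hX hh0 hh0X hW hΛ
  by_contra hcon
  push Not at hcon
  have hX2 : 2 ≤ X := hX0.trans hX
  have hXp : 0 < X := by linarith
  have hch := tld_choose ε X Q.card T hε hX2 hcon hT1 hTX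
  have hp := hK p hpK
  have hpt := fun q (hq : q ∈ Q) => tld_pt X h0 Λ K i p e q hK hpK hΛ0 (hQ q hq)
  choose! u1 u2 hu using hpt
  have hprime : ∀ q ∈ Q, ∀ j, (q j).Prime := fun q hq j => ((hQ q hq).2.1 j).1
  set n := ⌈Λ / Real.log p⌉₊ with hn
  set e1 := e (tld_s1 i) with he1
  set e2 := e (tld_s2 i) with he2
  have hEE : ∀ j, (1 ≤ e1 j ∧ e2 j = 0) ∨ (e1 j = 0 ∧ 1 ≤ e2 j) := by
    intro j
    obtain ⟨s, hs, hs1, hs2⟩ := hE j
    rcases tld_s12all i s hs with h | h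
    · left
      subst h
      exact ⟨hs1, hs2 _ (tld_s2ne i) (tld_s12 i).symm⟩
    · right
      subst h
      exact ⟨hs2 _ (tld_s1ne i) (tld_s12 i), hs1⟩
  -- the classes
  set P := powersetCard T Q with hP
  have hPQ : ∀ I ∈ P, I ⊆ Q ∧ I.card = T := fun I hI => Finset.mem_powersetCard.1 hI
  set M := ⌊3 * h0 * T⌋₊ with hM
  have hunit : ∀ w : (Fin (k + 1) → ℕ) → ℕ,
      (∀ q ∈ Q, w q ≠ 0 ∧ (w q).primeFactors ⊆ K ∧ Real.log (w q) ≤ 2 * h0) →
      (P.image fun I => ∏ q ∈ I, w q).card ≤ (M + 1) ^ K.card := by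
    intro w hw
    apply tld_units
    intro u hu'
    obtain ⟨I, hI, rfl⟩ := Finset.mem_image.1 hu'
    obtain ⟨hIQ, hIT⟩ := hPQ I hI
    have hne : ∏ q ∈ I, w q ≠ 0 := Finset.prod_ne_zero_iff.2 fun q hq => (hw q (hIQ hq)).1
    refine ⟨hne, ?_, ?_⟩
    · intro r hr
      have hr1 := Nat.prime_of_mem_primeFactors hr
      have hr2 := Nat.dvd_of_mem_primeFactors hr
      obtain ⟨q, hq, hqr⟩ := (Nat.Prime.prime hr1).exists_mem_finset_dvd hr2
      exact (hw q (hIQ hq)).2.1 (Nat.mem_primeFactors.2 ⟨hr1, hqr, (hw q (hIQ hq)).1⟩)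
    · intro r _
      rw [hM]
      apply Nat.le_floor
      have hlog : Real.log ((∏ q ∈ I, w q : ℕ) : ℝ) ≤ T * (2 * h0) := by
        rw [Nat.cast_prod, Real.log_prod fun q hq => Nat.cast_ne_zero.2 (hw q (hIQ hq)).1]
        calc ∑ q ∈ I, Real.log (w q) ≤ ∑ q ∈ I, 2 * h0 :=
              Finset.sum_le_sum fun q hq => (hw q (hIQ hq)).2.2
          _ = T * (2 * h0) := by rw [Finset.sum_const, hIT, nsmul_eq_mul]
      have := tld_expo _ r hne _ hlog
      linarith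
  have hI1 := hunit u1 fun q hq => ⟨(hu q hq).1, (hu q hq).2.2.1, (hu q hq).2.2.2.2.1⟩
  have hI2 := hunit u2 fun q hq => ⟨(hu q hq).2.1, (hu q hq).2.2.2.1, (hu q hq).2.2.2.2.2.1⟩
  set t := (P.image fun I => ∏ q ∈ I, u1 q) ×ˢ (P.image fun I => ∏ q ∈ I, u2 q) with ht
  set f : Finset (Fin (k + 1) → ℕ) → ℕ × ℕ := fun I => (∏ q ∈ I, u1 q, ∏ q ∈ I, u2 q) with hf
  have hft : ∀ I ∈ P, f I ∈ t := fun I hI => Finset.mem_product.2
    ⟨Finset.mem_image_of_mem _ hI, Finset.mem_image_of_mem _ hI⟩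
  set B : ℝ := X ^ T with hB
  have hBpos : 0 < B := by positivity
  have hM1 : ((M : ℝ) + 1) ≤ 3 * h0 * T + 1 := by
    have : (M : ℝ) ≤ 3 * h0 * T := Nat.floor_le (by positivity)
    linarith
  have hM2 : (1 : ℝ) ≤ 3 * h0 * T + 1 := by
    have : (0 : ℝ) ≤ 3 * h0 * T := by positivity
    linarith
  have htc : (t.card : ℝ) ≤ X ^ (ε * T / 4) := by
    refine le_trans ?_ hTW
    have h2 : (t.card : ℝ) ≤ ((M : ℝ) + 1) ^ K.card * ((M : ℝ) + 1) ^ K.card := by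
      rw [ht, Finset.card_product]
      push_cast
      exact mul_le_mul (by exact_mod_cast hI1) (by exact_mod_cast hI2) (by positivity)
        (by positivity)
    calc (t.card : ℝ) ≤ ((M : ℝ) + 1) ^ K.card * ((M : ℝ) + 1) ^ K.card := h2
      _ ≤ (3 * h0 * T + 1) ^ K.card * (3 * h0 * T + 1) ^ K.card := by gcongr
      _ = (3 * h0 * T + 1) ^ (2 * K.card) := by rw [← pow_add]; congr 1; ring
      _ ≤ (3 * h0 * T + 1) ^ (2 * W) := pow_le_pow_right₀ hM2 (by omega)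
  have hpig : t.card * ⌊B ^ (ε / 8)⌋₊ < P.card := by
    have h3 : ((t.card * ⌊B ^ (ε / 8)⌋₊ : ℕ) : ℝ) < (P.card : ℝ) := by
      rw [hP, Finset.card_powersetCard]
      push_cast
      have h4 : B ^ (ε / 8) = X ^ (ε * T / 8) := by
        rw [hB, ← Real.rpow_natCast, ← Real.rpow_mul hXp.le]
        congr 1
        ring
      calc (t.card : ℝ) * (⌊B ^ (ε / 8)⌋₊ : ℝ) ≤ X ^ (ε * T / 4) * X ^ (ε * T / 8) := by
            apply mul_le_mul htc _ (by positivity) (by positivity)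
            rw [← h4]
            exact Nat.floor_le (by positivity)
        _ = X ^ (3 * ε * T / 8) := by
            rw [← Real.rpow_add hXp]
            congr 1
            ring
        _ < X ^ (3 * ε * T / 4) := by
            apply Real.rpow_lt_rpow_of_exponent_lt (by linarith)
            have : (0 : ℝ) < ε * T := mul_pos hε (by exact_mod_cast hT1)
            linarith
        _ ≤ _ := hch
    exact_mod_cast h3
  obtain ⟨y, hy, hcard⟩ := Finset.exists_lt_card_fiber_of_mul_lt_card_of_maps_to hft hpig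
  set G := P.filter (fun I => f I = y) with hG
  have hGP : ∀ I ∈ G, I ∈ P ∧ f I = y := fun I hI => Finset.mem_filter.1 hI
  have hinj : Set.InjOn tld_pp (G : Set (Finset (Fin (k + 1) → ℕ))) := by
    intro I hI I' hI' h
    exact tld_inj Q I I' (hPQ I (hGP I hI).1).1 (hPQ I' (hGP I' hI').1).1 hprime hd h
  have hZcard : (G.image tld_pp).card = G.card := Finset.card_image_of_injOn hinj
  have hpq : ∀ q ∈ Q, ∀ j, ¬ p ∣ q j := by
    intro q hq j h2
    have h3 := (Nat.prime_dvd_prime_iff_eq hp (hprime q hq j)).1 h2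
    exact ((hQ q hq).2.1 j).2.2 (h3 ▸ hpK)
  have hlp : 0 < Real.log p := Real.log_pos (by exact_mod_cast hp.one_lt)
  have hpn : Real.exp Λ ≤ (p : ℝ) ^ n := by
    have h2 : Λ / Real.log p ≤ n := Nat.le_ceil _
    rw [div_le_iff₀ hlp] at h2
    calc Real.exp Λ ≤ Real.exp (n * Real.log p) := Real.exp_le_exp.2 h2
      _ = (p : ℝ) ^ n := by
          rw [Real.exp_nat_mul, Real.exp_log (by exact_mod_cast hp.pos)]
  have hfin := hcls B p n (univ.filter (fun j => 1 ≤ e1 j)) (fun j => e1 j + e2 j)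
    (G.image tld_pp) hTB hp ?_ ?_ ?_ ?_ ?_ ?_
  · rw [hZcard] at hfin
    have h2 : B ^ (ε / 8) < (G.card : ℝ) := by
      have h3 := Nat.lt_floor_add_one (B ^ (ε / 8))
      have h4 : ((⌊B ^ (ε / 8)⌋₊ : ℝ)) + 1 ≤ (G.card : ℝ) := by exact_mod_cast hcard
      linarith
    linarith
  · calc (p : ℝ) ^ C1 ≤ X ^ C1 :=
          Real.rpow_le_rpow (by positivity) hpX (by linarith)
      _ ≤ X ^ (T : ℝ) := Real.rpow_le_rpow_of_exponent_le (by linarith) hTC
      _ = B := by rw [hB, Real.rpow_natCast]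
  · intro j
    show 1 ≤ e1 j + e2 j
    rcases hEE j with ⟨h2, h3⟩ | ⟨h2, h3⟩ <;> omega
  · intro j
    show ((e1 j + e2 j : ℕ) : ℝ) * B ^ C1 ≤ (p : ℝ) ^ n
    obtain ⟨q, hq⟩ : Q.Nonempty := by
      rw [Finset.nonempty_iff_ne_empty]
      rintro rfl
      have : (0 : ℝ) < X ^ ε := by positivity
      simp at hcon
      linarith
    have h2 := (hu q hq).2.2.2.2.2.2.2.2.2
    have h3 : ((e1 j + e2 j : ℕ) : ℝ) ≤ 3 * h0 := by
      rcases hEE j with ⟨h4, h5⟩ | ⟨h4, h5⟩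
      · rw [h5]
        simpa using h2 _ (tld_s1ne i) j
      · rw [h4]
        simpa using h2 _ (tld_s2ne i) j
    have h6 : B ^ C1 = Real.exp (C1 * (T * Real.log X)) := by
      rw [Real.rpow_def_of_pos hBpos, hB, Real.log_pow]
      congr 1
      ring
    calc ((e1 j + e2 j : ℕ) : ℝ) * B ^ C1 ≤ 3 * h0 * B ^ C1 :=
          mul_le_mul_of_nonneg_right h3 (by positivity)
      _ = Real.exp (Real.log (3 * h0) + C1 * (T * Real.log X)) := by
          rw [Real.exp_add, Real.exp_log (by positivity), h6]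
      _ ≤ Real.exp Λ := Real.exp_le_exp.2 hTΛ
      _ ≤ (p : ℝ) ^ n := hpn
  · intro z hz j
    obtain ⟨I, hI, rfl⟩ := Finset.mem_image.1 hz
    obtain ⟨hIQ, hIT⟩ := hPQ I (hGP I hI).1
    constructor
    · show ((∏ q ∈ I, q j : ℕ) : ℝ) ≤ B
      rw [Nat.cast_prod, hB, ← hIT, ← Finset.prod_const]
      exact Finset.prod_le_prod (fun q _ => Nat.cast_nonneg _)
        fun q hq => ((hQ q (hIQ hq)).2.1 j).2.1
    · intro h2
      obtain ⟨q, hq, h3⟩ := (Nat.Prime.prime hp).exists_mem_finset_dvd h2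
      exact hpq q (hIQ hq) j h3
  · exact tld_star Q G (fun I hI => (hPQ I (hGP I hI).1).1) hprime hd
  · intro z hz z' hz'
    obtain ⟨I, hI, rfl⟩ := Finset.mem_image.1 hz
    obtain ⟨I', hI', rfl⟩ := Finset.mem_image.1 hz'
    obtain ⟨hIQ, hIT⟩ := hPQ I (hGP I hI).1
    obtain ⟨hIQ', hIT'⟩ := hPQ I' (hGP I' hI').1
    have h2 : f I = f I' := (hGP I hI).2.trans (hGP I' hI').2.symm
    refine tld_Rel I I' p n hp u1 u2 (tld_sg i) (tld_sgsq i) e1 e2 hEE
      (fun q hq => (hu q (hIQ hq)).2.2.2.2.2.2.2.2.1)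
      (fun q hq => (hu q (hIQ' hq)).2.2.2.2.2.2.2.2.1)
      (hIT.trans hIT'.symm) (congrArg Prod.fst h2) (congrArg Prod.snd h2)
      (fun q hq => (hu q (hIQ hq)).2.2.2.2.2.2.1)
      (fun q hq => (hu q (hIQ hq)).2.2.2.2.2.2.2.1)

end Pool.SHA
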